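import Pool.Agent.Helper4.AE.St

/-!
# Project AE (MP_35947b_nt), module PAR (parabolas of Ruzsa)
-/

set_option autoImplicit false

namespace Pool.Agent.Helper8.AE

open Pool.Agent.Helper4.AE
open Finset

private theorem exn (p : ℕ) [Fact p.Prime] (hp11 : 11 ≤ p) :
    ∃ n : ZMod p, ¬ IsSquare n ∧ n + 1 ≠ 0 ∧ n + 3 ≠ 0 ∧ 3 * n + 1 ≠ 0 := by
  have hchar : ringChar (ZMod p) ≠ 2 := by
    rw [ZMod.ringChar_zmod_n]
    omega
  obtain ⟨n0, hn0⟩ := FiniteField.exists_nonsquare hchar
  have hn00 : n0 ≠ 0 := by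
    rintro rfl
    exact hn0 ⟨0, by simp⟩
  have hcast : ∀ a : ℕ, 1 ≤ a → a < 11 → (a : ZMod p) ≠ 0 := by
    intro a h1 h2 h
    rw [ZMod.natCast_eq_zero_iff] at h
    have := Nat.le_of_dvd (by omega) h
    omega
  have h3 : (3 : ZMod p) ≠ 0 := by
    have := hcast 3 (by norm_num) (by norm_num)
    exact_mod_cast this
  set I : Finset (ZMod p) := (Finset.Icc 1 4).image (fun t : ℕ => (t : ZMod p) ^ 2 * n0) with hI
  have hIcard : I.card = 4 := by
    rw [hI, Finset.card_image_of_injOn]
    · rfl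
    · intro t ht s hs hts
      rw [Finset.mem_coe, Finset.mem_Icc] at ht hs
      have h1 : (t : ZMod p) ^ 2 = (s : ZMod p) ^ 2 := mul_right_cancel₀ hn00 hts
      have h2 : ((t : ZMod p) - s) * ((t + s : ℕ) : ZMod p) = 0 := by
        push_cast
        linear_combination h1
      rcases mul_eq_zero.mp h2 with h | h
      · by_contra hne
        rcases Nat.lt_or_gt_of_ne hne with hlt | hlt
        · apply hcast (s - t) (by omega) (by omega)
          rw [Nat.cast_sub hlt.le]
          linear_combination -h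
        · apply hcast (t - s) (by omega) (by omega)
          rw [Nat.cast_sub hlt.le]
          exact h
      · exact absurd h (hcast (t + s) (by omega) (by omega))
  have hEcard : ({-1, -3, -(3 : ZMod p)⁻¹} : Finset (ZMod p)).card ≤ 3 := Finset.card_le_three
  obtain ⟨n, hnI, hnE⟩ := Finset.exists_mem_notMem_of_card_lt_card
    (lt_of_le_of_lt hEcard (by rw [hIcard]; norm_num : 3 < I.card))
  rw [Finset.mem_insert, Finset.mem_insert, Finset.mem_singleton] at hnE
  push Not at hnE
  refine ⟨n, ?_, ?_, ?_, ?_⟩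
  · obtain ⟨t, ht, rfl⟩ := Finset.mem_image.mp hnI
    rw [Finset.mem_Icc] at ht
    rintro ⟨w, hw⟩
    apply hn0
    have ht0 := hcast t ht.1 (by omega)
    refine ⟨w / t, ?_⟩
    field_simp
    linear_combination hw
  · intro h
    exact hnE.1 (by linear_combination h)
  · intro h
    exact hnE.2.1 (by linear_combination h)
  · intro h
    apply hnE.2.2
    field_simp
    linear_combination h

private theorem roots (p : ℕ) [Fact p.Prime] (a b c : ZMod p) (ha : a ≠ 0) :
    ((univ : Finset (ZMod p)).filter (fun x => a * x ^ 2 + b * x + c = 0)).card ≤ 2 := by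
  by_cases h : ∃ x0 : ZMod p, a * x0 ^ 2 + b * x0 + c = 0
  · obtain ⟨x0, hx0⟩ := h
    have hsub : (univ : Finset (ZMod p)).filter (fun x => a * x ^ 2 + b * x + c = 0) ⊆
        {x0, -b / a - x0} := by
      intro x hx
      have hx' := (Finset.mem_filter.mp hx).2
      have h1 : (x - x0) * (a * (x + x0) + b) = 0 := by linear_combination hx' - hx0
      rw [Finset.mem_insert, Finset.mem_singleton]
      rcases mul_eq_zero.mp h1 with h | h
      · left
        linear_combination h
      · right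
        field_simp
        linear_combination h
    exact le_trans (Finset.card_le_card hsub) Finset.card_le_two
  · rw [Finset.filter_eq_empty_iff.mpr]
    · simp
    · intro x _ hx
      exact h ⟨x, hx⟩

private theorem sqmul (p : ℕ) [Fact p.Prime] (a b : ZMod p) (ha : ¬ IsSquare a)
    (hb : ¬ IsSquare b) : IsSquare (a * b) := by
  classical
  have h1 := (quadraticChar_neg_one_iff_not_isSquare (F := ZMod p) (a := a)).mpr ha
  have h2 := (quadraticChar_neg_one_iff_not_isSquare (F := ZMod p) (a := b)).mpr hb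
  have ha0 : a ≠ 0 := by
    rintro rfl
    exact ha ⟨0, by simp⟩
  have hb0 : b ≠ 0 := by
    rintro rfl
    exact hb ⟨0, by simp⟩
  rw [← quadraticChar_one_iff_isSquare (mul_ne_zero ha0 hb0), map_mul, h1, h2]
  norm_num

theorem hPAR : StPAR := by
  intro p hp hp11
  have : Fact p.Prime := ⟨hp⟩
  classical
  obtain ⟨n, hn, h1, h3, h13⟩ := exn p hp11
  have hn0 : n ≠ 0 := by
    rintro rfl
    exact hn ⟨0, by simp⟩
  have h2 : (2 : ZMod p) ≠ 0 := by
    intro h
    have h' : ((2 : ℕ) : ZMod p) = 0 := by exact_mod_cast h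
    rw [ZMod.natCast_eq_zero_iff] at h'
    have := Nat.le_of_dvd (by norm_num) h'
    omega
  set K : Finset (ZMod p) := {2, 1 + n, 1 + n⁻¹} with hK
  have hK2 : (2 : ZMod p) ∈ K := by rw [hK]; simp
  have hK3 : 1 + n ∈ K := by rw [hK]; simp
  have hK4 : 1 + n⁻¹ ∈ K := by rw [hK]; simp
  have hKcard : K.card ≤ 3 := Finset.card_le_three
  have hm1 : n * (1 + n⁻¹) = n + 1 := by field_simp
  have e22 : (2 : ZMod p) + 2 ≠ 0 := by
    have : (2 : ZMod p) + 2 = 2 * 2 := by ring
    rw [this]; exact mul_ne_zero h2 h2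
  have e23 : (2 : ZMod p) + (1 + n) ≠ 0 := by
    intro h; exact h3 (by linear_combination h)
  have e24 : (2 : ZMod p) + (1 + n⁻¹) ≠ 0 := by
    intro h
    apply h13
    linear_combination n * h - hm1
  have e33 : (1 + n) + (1 + n) ≠ 0 := by
    have : (1 + n) + (1 + n) = 2 * (n + 1) := by ring
    rw [this]; exact mul_ne_zero h2 h1
  have e34 : (1 + n) + (1 + n⁻¹) ≠ 0 := by
    intro h
    apply mul_ne_zero h1 h1
    linear_combination n * h - hm1
  have e44 : (1 + n⁻¹) + (1 + n⁻¹) ≠ 0 := by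
    intro h
    apply mul_ne_zero h2 h1
    linear_combination n * h - 2 * hm1
  have hKK : ∀ k ∈ K, ∀ l ∈ K, k + l ≠ 0 := by
    intro k hk l hl
    rw [hK, Finset.mem_insert, Finset.mem_insert, Finset.mem_singleton] at hk hl
    rcases hk with rfl | rfl | rfl <;> rcases hl with rfl | rfl | rfl
    · exact e22
    · exact e23
    · exact e24
    · rw [add_comm]; exact e23
    · exact e33
    · exact e34
    · rw [add_comm]; exact e24
    · rw [add_comm]; exact e34
    · exact e44
  refine ⟨((univ : Finset (ZMod p)) ×ˢ K).image (fun q => (q.1, q.2 * q.1 ^ 2)), ?_⟩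
  rintro ⟨s, t⟩
  constructor
  · -- lower bound
    have hex : ∃ k ∈ K, ∃ l ∈ K, ∃ x : ZMod p, k * x ^ 2 + l * (s - x) ^ 2 = t := by
      by_cases hsq : IsSquare (t - s ^ 2)
      · obtain ⟨w, hw⟩ := hsq
        refine ⟨2, hK2, 2, hK2, (w + s) / 2, ?_⟩
        field_simp
        linear_combination -2 * hw
      · obtain ⟨w, hw⟩ := sqmul p n (t - s ^ 2) hn hsq
        -- kappa = (n+1)^2/n
        refine ⟨1 + n, hK3, 1 + n⁻¹, hK4, (w * (n + 1) / n + (1 + n⁻¹) * s) / ((n + 1) ^ 2 / n), ?_⟩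
        field_simp
        linear_combination (-(1 + n) ^ 2) * hw
    obtain ⟨k, hk, l, hl, x, hx⟩ := hex
    apply Finset.card_pos.mpr
    refine ⟨((x, k * x ^ 2), (s - x, l * (s - x) ^ 2)), ?_⟩
    rw [Finset.mem_filter, Finset.mem_product]
    refine ⟨⟨?_, ?_⟩, ?_⟩
    · exact Finset.mem_image.mpr ⟨(x, k), by simp [hk], rfl⟩
    · exact Finset.mem_image.mpr ⟨(s - x, l), by simp [hl], rfl⟩
    · simp only [Prod.mk_add_mk, add_sub_cancel, hx]
  · -- upper bound
    have hsub : (((((univ : Finset (ZMod p)) ×ˢ K).image (fun q => (q.1, q.2 * q.1 ^ 2))) ×ˢ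
        (((univ : Finset (ZMod p)) ×ˢ K).image (fun q => (q.1, q.2 * q.1 ^ 2)))).filter
          fun q => q.1 + q.2 = (s, t)) ⊆
        (K ×ˢ K).biUnion (fun kl => ((univ : Finset (ZMod p)).filter
          (fun x => (kl.1 + kl.2) * x ^ 2 + (-2 * kl.2 * s) * x + (kl.2 * s ^ 2 - t) = 0)).image
            (fun x => ((x, kl.1 * x ^ 2), (s - x, kl.2 * (s - x) ^ 2)))) := by
      rintro ⟨⟨x, u⟩, ⟨y, v⟩⟩ hq
      rw [Finset.mem_filter, Finset.mem_product] at hq
      obtain ⟨⟨hq1, hq2⟩, hq3⟩ := hq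
      obtain ⟨⟨x1, k⟩, hk, he⟩ := Finset.mem_image.mp hq1
      obtain ⟨⟨y1, l⟩, hl, hf⟩ := Finset.mem_image.mp hq2
      simp only [Prod.mk.injEq] at he hf
      obtain ⟨rfl, rfl⟩ := he
      obtain ⟨rfl, rfl⟩ := hf
      have hk' : k ∈ K := (Finset.mem_product.mp hk).2
      have hl' : l ∈ K := (Finset.mem_product.mp hl).2
      simp only [Prod.mk_add_mk, Prod.mk.injEq] at hq3
      obtain ⟨hxy, hkl⟩ := hq3
      have hy : y1 = s - x1 := by linear_combination hxy
      rw [Finset.mem_biUnion]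
      refine ⟨(k, l), Finset.mem_product.mpr ⟨hk', hl'⟩, ?_⟩
      rw [Finset.mem_image]
      refine ⟨x1, ?_, ?_⟩
      · rw [Finset.mem_filter]
        refine ⟨Finset.mem_univ _, ?_⟩
        rw [hy] at hkl
        simp only
        linear_combination hkl
      · rw [hy]
    refine le_trans (Finset.card_le_card hsub) ?_
    refine le_trans (Finset.card_biUnion_le_card_mul _ _ 2 ?_) ?_
    · rintro ⟨k, l⟩ hkl
      rw [Finset.mem_product] at hkl
      exact le_trans Finset.card_image_le (roots p _ _ _ (hKK k hkl.1 l hkl.2))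
    · rw [Finset.card_product]
      nlinarith

end Pool.Agent.Helper8.AE
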