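import Pool.Agent.Helper4.AE.St

/-!
# Project AE (MP_35947b_nt), module VB (bound for the variance)
-/

set_option autoImplicit false

namespace Pool.Agent.Helper8.AE

open Pool.Agent.Helper4.AE
open Finset

theorem hVB : StVB := by
  intro hVAR hUNI hMOB hPHI hPR m _ r h A hA
  have hm : 0 < m := Nat.pos_of_ne_zero (NeZero.ne m)
  have hmr : (0 : ℝ) < m := by exact_mod_cast hm
  have hdvd : ∀ d : ZMod m, addOrderOf d ∣ m := by
    intro d
    have := addOrderOf_dvd_card (x := d)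
    rwa [ZMod.card] at this
  -- one difference
  have hpair : ∀ d : ZMod m, ∑ u : (ZMod m)ˣ, (TT m h ((u : ZMod m) * d) : ℝ) ≤
      (Nat.totient m : ℝ) * ((h : ℝ) ^ 2 / m) +
        (Nat.totient m : ℝ) * h *
          (((addOrderOf d).divisors.card : ℝ) ^ 2 / (addOrderOf d : ℝ)) := by
    intro d
    obtain ⟨q, hq⟩ := hdvd d
    set n := addOrderOf d with hn
    have hn1 : 1 ≤ n := by
      rcases Nat.eq_zero_or_pos n with h0 | h0
      · rw [h0, zero_mul] at hq; omega
      · exact h0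
    have hq1 : 1 ≤ q := by
      rcases Nat.eq_zero_or_pos q with h0 | h0
      · rw [h0, mul_zero] at hq; omega
      · exact h0
    have h1 := hUNI m d q (fun x => (TT m h x : ℝ)) hq.symm
    have h2 := hMOB m n q h hn1 hq1 hq.symm
    have h3 := hPHI n hn1
    rw [← hn] at h1
    have hφn : 0 < Nat.totient n := Nat.totient_pos.mpr hn1
    have hφnr : (0 : ℝ) < Nat.totient n := by exact_mod_cast hφn
    have hφm : (0 : ℝ) ≤ Nat.totient m := Nat.cast_nonneg _
    have hnr : (0 : ℝ) < n := by exact_mod_cast hn1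
    have h3r : (n : ℝ) ≤ Nat.totient n * n.divisors.card := by exact_mod_cast h3
    have hτ0 : (0 : ℝ) ≤ n.divisors.card := Nat.cast_nonneg _
    have hh0 : (0 : ℝ) ≤ h := Nat.cast_nonneg _
    have h4 : (Nat.totient n : ℝ) * ∑ u : (ZMod m)ˣ, (TT m h ((u : ZMod m) * d) : ℝ) ≤
        (Nat.totient m : ℝ) * ((Nat.totient n : ℝ) * ((h : ℝ) ^ 2 / m) + h * n.divisors.card) := by
      rw [h1]
      exact mul_le_mul_of_nonneg_left h2 hφm
    have h5 : (Nat.totient m : ℝ) * ((Nat.totient n : ℝ) * ((h : ℝ) ^ 2 / m) +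
        h * n.divisors.card) ≤ (Nat.totient n : ℝ) * ((Nat.totient m : ℝ) * ((h : ℝ) ^ 2 / m) +
        (Nat.totient m : ℝ) * h * ((n.divisors.card : ℝ) ^ 2 / (n : ℝ))) := by
      have h6 : (n.divisors.card : ℝ) ≤ (Nat.totient n : ℝ) * ((n.divisors.card : ℝ) ^ 2 / n) := by
        rw [mul_div_assoc', le_div_iff₀ hnr]
        nlinarith
      have h7 := mul_le_mul_of_nonneg_left h6 (mul_nonneg hφm hh0)
      linarith
    exact le_of_mul_le_mul_left (le_trans h4 h5) hφnr
  -- the second moment for one dilate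
  have hone : ∀ u : (ZMod m)ˣ, (∑ v : ZMod m, (Nn (dil u A) h v : ℝ) ^ 2) =
      ∑ p ∈ A ×ˢ A, (TT m h ((u : ZMod m) * (p.1 - p.2)) : ℝ) := by
    intro u
    have h1 := (hVAR m (dil u A) h).2
    have hinj : Function.Injective (fun a : ZMod m => (u : ZMod m) * a) := by
      intro a b hab
      exact (Units.mul_right_inj u).mp hab
    have h2 : ((∑ v : ZMod m, Nn (dil u A) h v ^ 2 : ℕ) : ℝ) =
        ((∑ a ∈ dil u A, ∑ a' ∈ dil u A, TT m h (a - a') : ℕ) : ℝ) := by rw [h1]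
    push_cast at h2
    rw [h2, Finset.sum_product]
    unfold dil
    rw [Finset.sum_image hinj.injOn]
    refine Finset.sum_congr rfl fun a _ => ?_
    rw [Finset.sum_image hinj.injOn]
    refine Finset.sum_congr rfl fun a' _ => ?_
    rw [mul_sub]
  have hsum : ∑ u : (ZMod m)ˣ, ((∑ v : ZMod m, (Nn (dil u A) h v : ℝ) ^ 2) -
      (A.card : ℝ) ^ 2 * (h : ℝ) ^ 2 / m) =
      ∑ p ∈ A ×ˢ A, (∑ u : (ZMod m)ˣ, (TT m h ((u : ZMod m) * (p.1 - p.2)) : ℝ)) -
        (Nat.totient m : ℝ) * ((A.card : ℝ) ^ 2 * (h : ℝ) ^ 2 / m) := by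
    rw [Finset.sum_sub_distrib, Finset.sum_const, Finset.card_univ, ZMod.card_units_eq_totient,
      nsmul_eq_mul, Finset.sum_congr rfl fun u _ => hone u, Finset.sum_comm]
  have hmain : ∑ p ∈ A ×ˢ A, (∑ u : (ZMod m)ˣ, (TT m h ((u : ZMod m) * (p.1 - p.2)) : ℝ)) ≤
      (Nat.totient m : ℝ) * ((A.card : ℝ) ^ 2 * (h : ℝ) ^ 2 / m) +
      (Nat.totient m : ℝ) * h * ∑ p ∈ A ×ˢ A,
        (((addOrderOf (p.1 - p.2)).divisors.card : ℝ) ^ 2 / (addOrderOf (p.1 - p.2) : ℝ)) := by
    refine le_trans (Finset.sum_le_sum fun p _ => hpair (p.1 - p.2)) ?_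
    rw [Finset.sum_add_distrib, Finset.sum_const, Finset.card_product, ← Finset.mul_sum,
      nsmul_eq_mul]
    push_cast
    apply le_of_eq
    ring
  -- grouping by the order
  have hgroup : ∑ p ∈ A ×ˢ A,
        (((addOrderOf (p.1 - p.2)).divisors.card : ℝ) ^ 2 / (addOrderOf (p.1 - p.2) : ℝ)) ≤
      A.card * Real.sqrt r * (m.divisors.card : ℝ) ^ 3 := by
    rw [← Finset.sum_fiberwise_of_maps_to (s := A ×ˢ A) (t := m.divisors)
      (g := fun p => addOrderOf (p.1 - p.2))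
      (fun p _ => Nat.mem_divisors.mpr ⟨hdvd _, hm.ne'⟩)]
    have hterm : ∀ n ∈ m.divisors, ∑ p ∈ (A ×ˢ A).filter (fun p => addOrderOf (p.1 - p.2) = n),
        (((addOrderOf (p.1 - p.2)).divisors.card : ℝ) ^ 2 / (addOrderOf (p.1 - p.2) : ℝ)) ≤
        A.card * Real.sqrt r * (m.divisors.card : ℝ) ^ 2 := by
      intro n hn
      have hnm := (Nat.mem_divisors.mp hn).1
      have hn1 : 1 ≤ n := Nat.pos_of_dvd_of_pos hnm hm
      have hnr : (1 : ℝ) ≤ n := by exact_mod_cast hn1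
      have h1 : ∑ p ∈ (A ×ˢ A).filter (fun p => addOrderOf (p.1 - p.2) = n),
          (((addOrderOf (p.1 - p.2)).divisors.card : ℝ) ^ 2 / (addOrderOf (p.1 - p.2) : ℝ)) =
          ∑ p ∈ (A ×ˢ A).filter (fun p => addOrderOf (p.1 - p.2) = n),
            ((n.divisors.card : ℝ) ^ 2 / (n : ℝ)) := by
        refine Finset.sum_congr rfl fun p hp => ?_
        rw [(Finset.mem_filter.mp hp).2]
      rw [h1, Finset.sum_const, nsmul_eq_mul]
      have h2 := hPR m r n A hA hn1 hnm
      have hτ : (n.divisors.card : ℝ) ≤ (m.divisors.card : ℝ) := by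
        exact_mod_cast Finset.card_le_card (Nat.divisors_subset_of_dvd hm.ne' hnm)
      have hτ0 : (0 : ℝ) ≤ n.divisors.card := Nat.cast_nonneg _
      have h3 : ((n.divisors.card : ℝ) ^ 2 / (n : ℝ)) ≤ (m.divisors.card : ℝ) ^ 2 / n := by
        gcongr
      have h4 : Real.sqrt (r * n) ≤ Real.sqrt r * n := by
        rw [Real.sqrt_mul (Nat.cast_nonneg _)]
        apply mul_le_mul_of_nonneg_left _ (Real.sqrt_nonneg _)
        rw [Real.sqrt_le_left (by linarith)]
        nlinarith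
      calc _ ≤ (A.card * Real.sqrt (r * n)) * ((m.divisors.card : ℝ) ^ 2 / n) :=
            mul_le_mul h2 h3 (by positivity) (by positivity)
        _ ≤ (A.card * (Real.sqrt r * n)) * ((m.divisors.card : ℝ) ^ 2 / n) := by
            gcongr
        _ = A.card * Real.sqrt r * (m.divisors.card : ℝ) ^ 2 := by
            field_simp
    refine le_trans (Finset.sum_le_sum hterm) ?_
    rw [Finset.sum_const, nsmul_eq_mul]
    apply le_of_eq
    ring
  rw [hsum]
  have hc : (0 : ℝ) ≤ (Nat.totient m : ℝ) * h := by positivity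
  have h8 := mul_le_mul_of_nonneg_left hgroup hc
  have h9 : (Nat.totient m : ℝ) * h * (A.card * Real.sqrt r * (m.divisors.card : ℝ) ^ 3) =
      (Nat.totient m : ℝ) * h * A.card * Real.sqrt r * (m.divisors.card : ℝ) ^ 3 := by ring
  rw [h9] at h8
  linarith

end Pool.Agent.Helper8.AE
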